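import Mathlib

set_option autoImplicit false

open Finset Filter Topology

namespace Pool.Agent.U137.DB

noncomputable section

/-- shift register: drop the first symbol, append `b` -/
def next {m : ℕ} (x : Fin m → Bool) (b : Bool) : Fin m → Bool :=
  fun j => if h : j.val + 1 < m then x ⟨j.val + 1, h⟩ else b

/-- transition matrix of the shift register with a uniformly random new symbol -/
def P (m : ℕ) : Matrix (Fin m → Bool) (Fin m → Bool) ℝ := fun x y =>
  1 / 2 * (if y = next x false then 1 else 0) + 1 / 2 * (if y = next x true then 1 else 0)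

/-- the matrix with all entries `1 / 2 ^ m` -/
def J (m : ℕ) : Matrix (Fin m → Bool) (Fin m → Bool) ℝ := fun _ _ => 1 / 2 ^ m

theorem P_mulVec {m : ℕ} (f : (Fin m → Bool) → ℝ) (x : Fin m → Bool) :
    (P m).mulVec f x = 1 / 2 * f (next x false) + 1 / 2 * f (next x true) := by
  simp only [Matrix.mulVec, dotProduct, P, add_mul, Finset.sum_add_distrib, mul_assoc,
    ite_mul, one_mul, zero_mul, ← Finset.mul_sum, Finset.sum_ite_eq', Finset.mem_univ, if_true]
  

theorem J_mulVec {m : ℕ} (f : (Fin m → Bool) → ℝ) (x : Fin m → Bool) :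
    (J m).mulVec f x = 1 / 2 ^ m * ∑ y, f y := by
  simp only [Matrix.mulVec, dotProduct, J, ← Finset.mul_sum]

/-- inverse of the shift -/
def prev {m : ℕ} (c : Bool) (y : Fin m → Bool) : Fin m → Bool :=
  fun j => if h : 0 < j.val then y ⟨j.val - 1, by omega⟩ else c

theorem sum_next {m : ℕ} (hm : 0 < m) (f : (Fin m → Bool) → ℝ) :
    ∑ x, (1 / 2 * f (next x false) + 1 / 2 * f (next x true)) = ∑ x, f x := by
  let e : (Fin m → Bool) × Bool ≃ (Fin m → Bool) × Bool :=
    { toFun := fun p => (next p.1 p.2, p.1 ⟨0, hm⟩)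
      invFun := fun p => (prev p.2 p.1, p.1 ⟨m - 1, by omega⟩)
      left_inv := by
        rintro ⟨x, b⟩
        ext j
        · simp only [prev, next]
          by_cases h : 0 < j.val
          · rw [dif_pos h, dif_pos (show j.val - 1 + 1 < m by omega)]
            congr 1
            ext
            simp
            omega
          · rw [dif_neg h]
            congr 1
            ext
            simp
            omega
        · simp only [next]
          rw [dif_neg (by omega)]
      right_inv := by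
        rintro ⟨y, c⟩
        ext j
        · simp only [prev, next]
          by_cases h : j.val + 1 < m
          · rw [dif_pos h, dif_pos (by simp)]
            congr 1
          · rw [dif_neg h]
            congr 1
            ext
            simp
            omega
        · simp only [prev]
          rw [dif_neg (by simp)] }
  have h1 : ∑ p : (Fin m → Bool) × Bool, f (next p.1 p.2) = ∑ p : (Fin m → Bool) × Bool, f p.1 :=
    e.sum_comp (fun p => f p.1)
  rw [Fintype.sum_prod_type, Fintype.sum_prod_type] at h1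
  simp only [Fintype.sum_bool, Finset.sum_const, Finset.card_univ, Fintype.card_bool] at h1
  rw [Finset.sum_add_distrib] at h1 
  rw [Finset.sum_add_distrib, ← Finset.mul_sum, ← Finset.mul_sum]
  rw [← Finset.smul_sum] at h1
  simp only [nsmul_eq_mul, Nat.cast_ofNat] at h1
  linarith

theorem mulVec_ext {m : ℕ} {A B : Matrix (Fin m → Bool) (Fin m → Bool) ℝ}
    (h : ∀ f x, A.mulVec f x = B.mulVec f x) : A = B := by
  ext x y
  have := h (Pi.single y 1) x
  simpa [Matrix.mulVec_single] using this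

theorem PJ {m : ℕ} : P m * J m = J m := by
  apply mulVec_ext
  intro f x
  rw [← Matrix.mulVec_mulVec, P_mulVec, J_mulVec, J_mulVec, J_mulVec]
  ring

theorem JP {m : ℕ} (hm : 0 < m) : J m * P m = J m := by
  apply mulVec_ext
  intro f x
  rw [← Matrix.mulVec_mulVec, J_mulVec, J_mulVec]
  simp only [P_mulVec]
  rw [sum_next hm]

theorem JJ {m : ℕ} : J m * J m = J m := by
  apply mulVec_ext
  intro f x
  rw [← Matrix.mulVec_mulVec, J_mulVec, J_mulVec]
  simp only [J_mulVec]
  rw [Finset.sum_const, Finset.card_univ]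
  simp

/-- `P ^ k f` depends only on the coordinates from `k` on -/
theorem pow_dep {m : ℕ} (k : ℕ) (f : (Fin m → Bool) → ℝ) (x y : Fin m → Bool)
    (h : ∀ j : Fin m, k ≤ j.val → x j = y j) :
    (P m ^ k).mulVec f x = (P m ^ k).mulVec f y := by
  induction k generalizing x y with
  | zero =>
    have : x = y := funext fun j => h j (Nat.zero_le _)
    rw [this]
  | succ k ih =>
    rw [pow_succ', ← Matrix.mulVec_mulVec, P_mulVec, P_mulVec]
    have h2 : ∀ b, (P m ^ k).mulVec f (next x b) = (P m ^ k).mulVec f (next y b) := by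
      intro b
      apply ih
      intro j hj
      unfold next
      by_cases h3 : j.val + 1 < m
      · rw [dif_pos h3, dif_pos h3]
        exact h ⟨j.val + 1, h3⟩ (by simp; omega)
      · rw [dif_neg h3, dif_neg h3]
    rw [h2 false, h2 true]

theorem J_pow {m : ℕ} (hm : 0 < m) (k : ℕ) : J m * P m ^ k = J m := by
  induction k with
  | zero => simp
  | succ k ih => rw [pow_succ, ← mul_assoc, ih, JP hm]

theorem pow_J {m : ℕ} (k : ℕ) : P m ^ k * J m = J m := by
  induction k with
  | zero => simp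
  | succ k ih => rw [pow_succ, mul_assoc, PJ, ih]

theorem P_pow_m {m : ℕ} (hm : 0 < m) : P m ^ m = J m := by
  apply mulVec_ext
  intro f x
  have h1 : ∀ y, (P m ^ m).mulVec f y = (P m ^ m).mulVec f x := fun y =>
    pow_dep m f y x fun j hj => absurd hj (by omega)
  have h2 : (J m * P m ^ m).mulVec f x = (J m).mulVec f x := by rw [J_pow hm]
  rw [← Matrix.mulVec_mulVec, J_mulVec] at h2
  simp only [h1] at h2
  rw [Finset.sum_const, Finset.card_univ] at h2
  simp only [Fintype.card_pi, Fintype.card_bool, Finset.prod_const, Finset.card_univ,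
    Fintype.card_fin, nsmul_eq_mul, Nat.cast_pow, Nat.cast_ofNat] at h2
  rw [← h2]
  field_simp

/-! ### the perturbed generator -/

/-- generator: at rate one the shift register moves, at rate `a` the state is replaced by a
uniformly random one -/
def Q (m : ℕ) (a : ℝ) : Matrix (Fin m → Bool) (Fin m → Bool) ℝ := (P m - 1) + a • (J m - 1)

theorem exp_hasSum {S : Type} [Fintype S] [DecidableEq S] (A : Matrix S S ℝ) :
    HasSum (fun k : ℕ => ((k.factorial : ℝ)⁻¹) • A ^ k) (NormedSpace.exp A) := by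
  let _ : NormedRing (Matrix S S ℝ) := Matrix.linftyOpNormedRing
  let _ : NormedAlgebra ℝ (Matrix S S ℝ) := Matrix.linftyOpNormedAlgebra
  exact NormedSpace.exp_series_hasSum_exp' (𝕂 := ℝ) A

theorem shift_pow {m : ℕ} (hm : 0 < m) (a : ℝ) (k : ℕ) :
    (Q m a + (1 + a) • (1 : Matrix (Fin m → Bool) (Fin m → Bool) ℝ)) ^ k =
      P m ^ k + ((1 + a) ^ k - 1) • J m := by
  induction k with
  | zero => simp
  | succ k ih =>
    rw [pow_succ, ih]
    have h0 : Q m a + (1 + a) • (1 : Matrix (Fin m → Bool) (Fin m → Bool) ℝ) =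
        P m + a • J m := by
      unfold Q
      rw [smul_sub, add_smul, one_smul]
      abel
    rw [h0, add_mul, mul_add, mul_add, ← pow_succ, smul_mul_assoc, smul_mul_assoc,
      mul_smul_comm, mul_smul_comm, pow_J, JP hm, JJ, smul_smul]
    rw [add_assoc]
    congr 1
    rw [← add_smul, ← add_smul]
    congr 1
    ring

theorem entry_hasSum {S : Type} [Fintype S] [DecidableEq S] (A : Matrix S S ℝ) (x y : S) :
    HasSum (fun k : ℕ => ((k.factorial : ℝ)⁻¹) * (A ^ k) x y) (NormedSpace.exp A x y) := by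
  have h := exp_hasSum A
  have h2 := (Pi.hasSum.1 (Pi.hasSum.1 h x)) y
  exact h2

theorem exp_smul_one {S : Type} [Fintype S] [DecidableEq S] (c : ℝ) :
    NormedSpace.exp (c • (1 : Matrix S S ℝ)) = Real.exp c • (1 : Matrix S S ℝ) := by
  have h := exp_hasSum (c • (1 : Matrix S S ℝ))
  have h2 : ∀ k : ℕ, ((k.factorial : ℝ)⁻¹) • (c • (1 : Matrix S S ℝ)) ^ k =
      (((k.factorial : ℝ)⁻¹) • c ^ k) • (1 : Matrix S S ℝ) := by
    intro k
    rw [smul_pow, one_pow, smul_smul, smul_eq_mul]
  simp only [h2] at h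
  have h3 : HasSum (fun k : ℕ => ((k.factorial : ℝ)⁻¹) • c ^ k) (Real.exp c) := by
    rw [Real.exp_eq_exp_ℝ]
    exact NormedSpace.exp_series_hasSum_exp' (𝕂 := ℝ) c
  exact h.unique (h3.smul_const _)

theorem exp_shift {S : Type} [Fintype S] [DecidableEq S] (A : Matrix S S ℝ) (c : ℝ) :
    NormedSpace.exp (A + c • (1 : Matrix S S ℝ)) = Real.exp c • NormedSpace.exp A := by
  rw [Matrix.exp_add_of_commute A (c • (1 : Matrix S S ℝ))
    (((Commute.one_right A).smul_right c)), exp_smul_one, mul_smul_comm, mul_one]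

theorem real_hasSum (c : ℝ) : HasSum (fun k : ℕ => c ^ k / k.factorial) (Real.exp c) := by
  rw [Real.exp_eq_exp_ℝ]
  exact NormedSpace.expSeries_div_hasSum_exp c

/-- the law at time `t` minus the uniform law, as a series -/
theorem law_hasSum {m : ℕ} (hm : 0 < m) (a t : ℝ) (x y : Fin m → Bool) :
    HasSum (fun k : ℕ => Real.exp (-((1 + a) * t)) * ((t ^ k / k.factorial) *
      ((P m ^ k) x y - 1 / 2 ^ m))) (NormedSpace.exp (t • Q m a) x y - 1 / 2 ^ m) := by
  set c : ℝ := 1 + a with hc
  have h1 : t • Q m a = t • (Q m a + c • (1 : Matrix (Fin m → Bool) (Fin m → Bool) ℝ)) +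
      (-(c * t)) • (1 : Matrix (Fin m → Bool) (Fin m → Bool) ℝ) := by
    rw [smul_add, smul_smul, add_assoc, ← add_smul]
    have : t * c + -(c * t) = 0 := by ring
    rw [this, zero_smul, add_zero]
  have h2 := entry_hasSum (t • (Q m a + c • (1 : Matrix (Fin m → Bool) (Fin m → Bool) ℝ))) x y
  have h3 : ∀ k : ℕ, ((k.factorial : ℝ)⁻¹) * ((t • (Q m a +
      c • (1 : Matrix (Fin m → Bool) (Fin m → Bool) ℝ))) ^ k) x y =
      t ^ k / k.factorial * ((P m ^ k) x y - 1 / 2 ^ m) +
        (c * t) ^ k / k.factorial * (1 / 2 ^ m) := by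
    intro k
    rw [smul_pow, shift_pow hm a k]
    simp only [Matrix.smul_apply, Matrix.add_apply, smul_eq_mul, J]
    rw [mul_pow]
    ring
  simp only [h3] at h2
  have h4 := h2.sub ((real_hasSum (c * t)).mul_right (1 / 2 ^ m : ℝ))
  simp only [add_sub_cancel_right] at h4
  have h5 := h4.mul_left (Real.exp (-(c * t)))
  have h6 : NormedSpace.exp (t • Q m a) x y - 1 / 2 ^ m = Real.exp (-(c * t)) *
      (NormedSpace.exp (t • (Q m a + c • (1 : Matrix (Fin m → Bool) (Fin m → Bool) ℝ))) x y -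
        Real.exp (c * t) * (1 / 2 ^ m)) := by
    rw [h1, exp_shift, Matrix.smul_apply, smul_eq_mul, mul_sub, ← mul_assoc, ← Real.exp_add]
    simp
  rw [h6]
  exact h5

/-! ### row sums, supports -/

theorem P_nonneg {m : ℕ} (x y : Fin m → Bool) : 0 ≤ P m x y := by
  unfold P
  split_ifs <;> norm_num

theorem pow_nonneg' {m : ℕ} (k : ℕ) (x y : Fin m → Bool) : 0 ≤ (P m ^ k) x y := by
  induction k generalizing x y with
  | zero =>
    rw [pow_zero, Matrix.one_apply]
    split_ifs <;> norm_num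
  | succ k ih =>
    rw [pow_succ, Matrix.mul_apply]
    exact Finset.sum_nonneg fun z _ => mul_nonneg (ih x z) (P_nonneg z y)

theorem pow_row {m : ℕ} (k : ℕ) (x : Fin m → Bool) : ∑ y, (P m ^ k) x y = 1 := by
  have h : (P m ^ k).mulVec (fun _ => 1) x = 1 := by
    induction k generalizing x with
    | zero => simp
    | succ k ih =>
      rw [pow_succ', ← Matrix.mulVec_mulVec, P_mulVec, ih, ih]
      norm_num
  simpa [Matrix.mulVec, dotProduct] using h

/-- the states which can be reached in exactly `k` steps -/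
def supp {m : ℕ} : ℕ → (Fin m → Bool) → Finset (Fin m → Bool)
  | 0, x => {x}
  | k + 1, x => (supp k x ×ˢ (univ : Finset Bool)).image (fun p => next p.1 p.2)

theorem supp_card {m : ℕ} (k : ℕ) (x : Fin m → Bool) : (supp k x).card ≤ 2 ^ k := by
  induction k with
  | zero => simp [supp]
  | succ k ih =>
    refine le_trans Finset.card_image_le ?_
    rw [Finset.card_product, Finset.card_univ, Fintype.card_bool, pow_succ]
    exact Nat.mul_le_mul_right 2 ih

theorem pow_supp {m : ℕ} (k : ℕ) (x y : Fin m → Bool) (h : y ∉ supp k x) :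
    (P m ^ k) x y = 0 := by
  induction k generalizing y with
  | zero =>
    rw [pow_zero, Matrix.one_apply, if_neg]
    rintro rfl
    exact h (by simp [supp])
  | succ k ih =>
    rw [pow_succ, Matrix.mul_apply]
    refine Finset.sum_eq_zero fun z _ => ?_
    by_cases hz : z ∈ supp k x
    · have h1 : P m z y = 0 := by
        unfold P
        rw [if_neg, if_neg]
        · norm_num
        · rintro rfl
          exact h (Finset.mem_image.2 ⟨(z, true), by simp [hz], rfl⟩)
        · rintro rfl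
          exact h (Finset.mem_image.2 ⟨(z, false), by simp [hz], rfl⟩)
      rw [h1, mul_zero]
    · rw [ih z hz, zero_mul]

/-- the states which can be reached in fewer than `h` steps -/
def ball {m : ℕ} (h : ℕ) (x : Fin m → Bool) : Finset (Fin m → Bool) :=
  (Finset.range h).biUnion (fun k => supp k x)

theorem ball_card {m : ℕ} (h : ℕ) (x : Fin m → Bool) : (ball h x).card ≤ 2 ^ h := by
  refine le_trans Finset.card_biUnion_le ?_
  refine le_trans (Finset.sum_le_sum fun k _ => supp_card k x) ?_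
  rw [Nat.geomSum_eq (le_refl 2)]
  simp

theorem ball_mass {m : ℕ} {h : ℕ} (x : Fin m → Bool) (k : ℕ) (hh : 0 < h) :
    1 - (k : ℝ) / h ≤ ∑ y ∈ ball h x, (P m ^ k) x y := by
  have hh' : (0 : ℝ) < h := by exact_mod_cast hh
  by_cases hk : k < h
  · have h1 : ∑ y ∈ ball h x, (P m ^ k) x y = 1 := by
      rw [← pow_row k x]
      refine Finset.sum_subset (Finset.subset_univ _) fun y _ hy => pow_supp k x y fun hy2 => ?_
      exact hy (Finset.mem_biUnion.2 ⟨k, Finset.mem_range.2 hk, hy2⟩)
    rw [h1]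
    have : 0 ≤ (k : ℝ) / h := by positivity
    linarith
  · have h1 : (h : ℝ) ≤ k := by exact_mod_cast not_lt.1 hk
    have h2 : 1 ≤ (k : ℝ) / h := by rwa [le_div_iff₀ hh', one_mul]
    have h3 : 0 ≤ ∑ y ∈ ball h x, (P m ^ k) x y :=
      Finset.sum_nonneg fun y _ => pow_nonneg' k x y
    linarith

/-- total variation distance to the uniform law -/
def tv (m : ℕ) (a : ℝ) (x : Fin m → Bool) (t : ℝ) : ℝ :=
  1 / 2 * ∑ y, |NormedSpace.exp (t • Q m a) x y - 1 / 2 ^ m|

theorem sum_hasSum {m : ℕ} (hm : 0 < m) (a t : ℝ) (x : Fin m → Bool)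
    (A : Finset (Fin m → Bool)) :
    HasSum (fun k : ℕ => Real.exp (-((1 + a) * t)) * ((t ^ k / k.factorial) *
      (∑ y ∈ A, (P m ^ k) x y - A.card / 2 ^ m)))
      (∑ y ∈ A, (NormedSpace.exp (t • Q m a) x y - 1 / 2 ^ m)) := by
  have h := hasSum_sum (s := A) (fun y _ => law_hasSum hm a t x y)
  have h2 : ∀ k : ℕ, ∑ y ∈ A, Real.exp (-((1 + a) * t)) * ((t ^ k / k.factorial) *
      ((P m ^ k) x y - 1 / 2 ^ m)) = Real.exp (-((1 + a) * t)) * ((t ^ k / k.factorial) *
      (∑ y ∈ A, (P m ^ k) x y - A.card / 2 ^ m)) := by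
    intro k
    rw [← Finset.mul_sum, ← Finset.mul_sum, Finset.sum_sub_distrib, Finset.sum_const,
      nsmul_eq_mul]
    ring
  simp only [h2] at h
  exact h

theorem half_sum_abs {S : Type} [Fintype S] (g : S → ℝ) (hg : ∑ y, g y = 0) :
    1 / 2 * ∑ y, |g y| = ∑ y ∈ univ.filter (fun y => 0 ≤ g y), g y := by
  have h1 := Finset.sum_filter_add_sum_filter_not univ (fun y => 0 ≤ g y) g
  have h2 := Finset.sum_filter_add_sum_filter_not univ (fun y => 0 ≤ g y) (fun y => |g y|)
  have h3 : ∑ y ∈ univ.filter (fun y => 0 ≤ g y), |g y| =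
      ∑ y ∈ univ.filter (fun y => 0 ≤ g y), g y :=
    Finset.sum_congr rfl fun y hy => abs_of_nonneg (Finset.mem_filter.1 hy).2
  have h4 : ∑ y ∈ univ.filter (fun y => ¬ 0 ≤ g y), |g y| =
      - ∑ y ∈ univ.filter (fun y => ¬ 0 ≤ g y), g y := by
    rw [← Finset.sum_neg_distrib]
    exact Finset.sum_congr rfl fun y hy => abs_of_neg (not_le.1 (Finset.mem_filter.1 hy).2)
  rw [h3, h4] at h2
  linarith

theorem half_sum_abs_ge {S : Type} [Fintype S] [DecidableEq S] (g : S → ℝ) (hg : ∑ y, g y = 0)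
    (B : Finset S) : ∑ y ∈ B, g y ≤ 1 / 2 * ∑ y, |g y| := by
  rw [half_sum_abs g hg]
  have h1 : ∑ y ∈ B, g y ≤ ∑ y ∈ B.filter (fun y => 0 ≤ g y), g y := by
    rw [← Finset.sum_filter_add_sum_filter_not B (fun y => 0 ≤ g y) g]
    have : ∑ y ∈ B.filter (fun y => ¬ 0 ≤ g y), g y ≤ 0 :=
      Finset.sum_nonpos fun y hy => (not_le.1 (Finset.mem_filter.1 hy).2).le
    linarith
  refine h1.trans (Finset.sum_le_sum_of_subset_of_nonneg ?_ ?_)
  · intro y hy
    exact Finset.mem_filter.2 ⟨Finset.mem_univ _, (Finset.mem_filter.1 hy).2⟩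
  · intro y hy _
    exact (Finset.mem_filter.1 hy).2

theorem total_zero {m : ℕ} (hm : 0 < m) (a t : ℝ) (x : Fin m → Bool) :
    ∑ y, (NormedSpace.exp (t • Q m a) x y - 1 / 2 ^ m) = 0 := by
  have h := sum_hasSum hm a t x univ
  have h2 : ∀ k : ℕ, (∑ y, (P m ^ k) x y - (univ : Finset (Fin m → Bool)).card / 2 ^ m) =
      (0 : ℝ) := by
    intro k
    rw [pow_row]
    simp
  simp only [h2, mul_zero] at h
  exact h.unique hasSum_zero

theorem tv_upper {m : ℕ} (hm : 0 < m) (a t : ℝ) (ht : 0 ≤ t) (x : Fin m → Bool) :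
    tv m a x t ≤ Real.exp (-(a * t)) := by
  unfold tv
  rw [half_sum_abs _ (total_zero hm a t x)]
  set A := univ.filter (fun y => 0 ≤ NormedSpace.exp (t • Q m a) x y - 1 / 2 ^ m) with hA
  have h := sum_hasSum hm a t x A
  have h2 := (real_hasSum t).mul_left (Real.exp (-((1 + a) * t)))
  rw [← Real.exp_add] at h2
  have h3 : -((1 + a) * t) + t = -(a * t) := by ring
  rw [h3] at h2
  refine hasSum_le (fun k => ?_) h h2
  refine mul_le_mul_of_nonneg_left ?_ (Real.exp_pos _).le
  have h4 : 0 ≤ t ^ k / (k.factorial : ℝ) := by positivity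
  have h5 : ∑ y ∈ A, (P m ^ k) x y ≤ 1 := by
    rw [← pow_row k x]
    exact Finset.sum_le_sum_of_subset_of_nonneg (Finset.subset_univ _)
      fun y _ _ => pow_nonneg' k x y
  have h6 : (0 : ℝ) ≤ A.card / 2 ^ m := by positivity
  calc t ^ k / (k.factorial : ℝ) * (∑ y ∈ A, (P m ^ k) x y - A.card / 2 ^ m)
      ≤ t ^ k / (k.factorial : ℝ) * 1 := mul_le_mul_of_nonneg_left (by linarith) h4
    _ = _ := mul_one _

theorem hasSum_mean (t : ℝ) :
    HasSum (fun k : ℕ => t ^ k / k.factorial * (k : ℝ)) (t * Real.exp t) := by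
  rw [← hasSum_nat_add_iff' 1]
  simp only [Finset.range_one, Finset.sum_singleton, Nat.cast_zero, mul_zero, sub_zero]
  have h := (real_hasSum t).mul_left t
  have h2 : ∀ k : ℕ, t * (t ^ k / (k.factorial : ℝ)) =
      t ^ (k + 1) / ((k + 1).factorial : ℝ) * ((k + 1 : ℕ) : ℝ) := by
    intro k
    rw [Nat.factorial_succ]
    have h3 : (k.factorial : ℝ) ≠ 0 := by positivity
    have h4 : ((k + 1 : ℕ) : ℝ) ≠ 0 := by positivity
    push_cast at h4 ⊢
    field_simp
    ring
  simp only [h2] at h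
  exact h

theorem tv_lower {m : ℕ} (hm : 0 < m) (a t : ℝ) (ht : 0 ≤ t) (x : Fin m → Bool) (h : ℕ)
    (hh : 0 < h) :
    Real.exp (-(a * t)) * (1 - t / h - 2 ^ h / 2 ^ m) ≤ tv m a x t := by
  have hh' : (0 : ℝ) < h := by exact_mod_cast hh
  unfold tv
  refine le_trans ?_ (half_sum_abs_ge _ (total_zero hm a t x) (ball h x))
  have h1 := sum_hasSum hm a t x (ball h x)
  have h2 := (((real_hasSum t).mul_left (1 - 2 ^ h / 2 ^ m)).sub
    ((hasSum_mean t).mul_left (1 / (h : ℝ)))).mul_left (Real.exp (-((1 + a) * t)))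
  have h3 : Real.exp (-((1 + a) * t)) * ((1 - 2 ^ h / 2 ^ m) * Real.exp t -
      1 / (h : ℝ) * (t * Real.exp t)) = Real.exp (-(a * t)) * (1 - t / h - 2 ^ h / 2 ^ m) := by
    have h4 : Real.exp (-(a * t)) = Real.exp (-((1 + a) * t)) * Real.exp t := by
      rw [← Real.exp_add]
      congr 1
      ring
    rw [h4]
    ring
  rw [← h3]
  refine hasSum_le (fun k => ?_) h2 h1
  refine mul_le_mul_of_nonneg_left ?_ (Real.exp_pos _).le
  have h4 : 0 ≤ t ^ k / (k.factorial : ℝ) := by positivity
  have h5 := ball_mass x k hh (m := m)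
  have h6 : ((ball h x).card : ℝ) / 2 ^ m ≤ 2 ^ h / 2 ^ m := by
    have := ball_card h x
    have h7 : ((ball h x).card : ℝ) ≤ 2 ^ h := by exact_mod_cast this
    exact div_le_div_of_nonneg_right h7 (by positivity)
  calc (1 - 2 ^ h / 2 ^ m) * (t ^ k / (k.factorial : ℝ)) -
        1 / (h : ℝ) * (t ^ k / k.factorial * (k : ℝ))
      = t ^ k / (k.factorial : ℝ) * (1 - (k : ℝ) / h - 2 ^ h / 2 ^ m) := by ring
    _ ≤ _ := mul_le_mul_of_nonneg_left (by linarith) h4

end

end Pool.Agent.U137.DB
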