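import Mathlib
import Pool.Agent.U137.DeBruijn

set_option autoImplicit false

open Finset Filter Topology

namespace Pool.Agent.U137.DB

theorem mem_spec_iff {S : Type} [Fintype S] [DecidableEq S] (M : Matrix S S ℂ) (z : ℂ) :
    z ∈ spectrum ℂ M ↔ ∃ v : S → ℂ, v ≠ 0 ∧ M.mulVec v = z • v := by
  rw [spectrum.mem_iff, Matrix.isUnit_iff_isUnit_det, isUnit_iff_ne_zero, not_not,
    ← Matrix.exists_mulVec_eq_zero_iff]
  refine exists_congr fun v => and_congr_right fun _ => ?_
  rw [Matrix.sub_mulVec, sub_eq_zero, Algebra.algebraMap_eq_smul_one, Matrix.smul_mulVec,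
    Matrix.one_mulVec]
  exact eq_comm

theorem Q_mul_J {m : ℕ} (a : ℝ) : Q m a * J m = 0 := by
  unfold Q
  rw [add_mul, sub_mul, PJ, smul_mul_assoc, sub_mul, JJ, one_mul]
  simp

theorem Q_annih {m : ℕ} (hm : 0 < m) (a : ℝ) :
    Q m a * (Q m a + (1 + a) • (1 : Matrix (Fin m → Bool) (Fin m → Bool) ℝ)) ^ m = 0 := by
  rw [shift_pow hm, P_pow_m hm, mul_add, mul_smul_comm, Q_mul_J]
  simp

theorem Q_eigen {m : ℕ} (hm : 0 < m) (a : ℝ) :
    (Q m a).mulVec (fun x => if x ⟨m - 1, by omega⟩ then 1 else -1) =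
      (-(1 + a)) • (fun x : Fin m → Bool => if x ⟨m - 1, by omega⟩ then (1 : ℝ) else -1) := by
  set v : (Fin m → Bool) → ℝ := fun x => if x ⟨m - 1, by omega⟩ then (1 : ℝ) else -1 with hv
  have h1 : (P m).mulVec v = 0 := by
    funext x
    rw [P_mulVec]
    have h2 : ∀ b, next x b ⟨m - 1, by omega⟩ = b := by
      intro b
      unfold next
      rw [dif_neg]
      simp
      omega
    simp only [hv, h2]
    simp
  have h3 : (J m).mulVec v = 0 := by
    rw [← JP hm, ← Matrix.mulVec_mulVec, h1, Matrix.mulVec_zero]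
  unfold Q
  rw [Matrix.add_mulVec, Matrix.sub_mulVec, h1, Matrix.smul_mulVec, Matrix.sub_mulVec, h3,
    Matrix.one_mulVec]
  funext x
  simp
  ring

theorem spec_C {m : ℕ} (hm : 0 < m) (a : ℝ) (ha : 0 < a) (z : ℂ) :
    (z ∈ spectrum ℂ (-((Q m a).map (algebraMap ℝ ℂ))) ∧ z ≠ 0) ↔ z = ((1 + a : ℝ) : ℂ) := by
  rw [mem_spec_iff]
  constructor
  · rintro ⟨⟨v, hv, h⟩, hz⟩
    set φ := (algebraMap ℝ ℂ).mapMatrix (m := Fin m → Bool) with hφ
    have h0 : (Q m a).map (algebraMap ℝ ℂ) = φ (Q m a) := rfl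
    rw [h0, Matrix.neg_mulVec] at h
    have h1 : (φ (Q m a)).mulVec v = (-z) • v := by
      rw [neg_smul, ← h, neg_neg]
    set c : ℂ := ((1 + a : ℝ) : ℂ) with hc
    have h2 : φ ((1 + a) • (1 : Matrix (Fin m → Bool) (Fin m → Bool) ℝ)) =
        c • (1 : Matrix (Fin m → Bool) (Fin m → Bool) ℂ) := by
      ext x y
      simp only [hφ, hc, RingHom.mapMatrix_apply, Matrix.map_apply, Matrix.smul_apply,
        Matrix.one_apply, smul_eq_mul]
      split_ifs <;> simp
    have h3 := congrArg φ (Q_annih hm a)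
    rw [map_mul, map_pow, map_add, h2, map_zero] at h3
    have h4 : (φ (Q m a) + c • (1 : Matrix (Fin m → Bool) (Fin m → Bool) ℂ)).mulVec v =
        (c - z) • v := by
      rw [Matrix.add_mulVec, h1, Matrix.smul_mulVec, Matrix.one_mulVec, ← add_smul]
      congr 1
      ring
    have h5 : ∀ k : ℕ, ((φ (Q m a) + c • (1 : Matrix (Fin m → Bool) (Fin m → Bool) ℂ)) ^ k).mulVec
        v = (c - z) ^ k • v := by
      intro k
      induction k with
      | zero => simp
      | succ k ih =>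
        rw [pow_succ, ← Matrix.mulVec_mulVec, h4, Matrix.mulVec_smul, ih, smul_smul]
        congr 1
        ring
    have h6 : (φ (Q m a) * (φ (Q m a) + c • (1 : Matrix (Fin m → Bool) (Fin m → Bool) ℂ)) ^
        m).mulVec v = 0 := by rw [h3, Matrix.zero_mulVec]
    rw [← Matrix.mulVec_mulVec, h5, Matrix.mulVec_smul, h1, smul_smul] at h6
    rcases smul_eq_zero.1 h6 with h7 | h7
    · rcases mul_eq_zero.1 h7 with h8 | h8
      · have h9 : c - z = 0 := pow_eq_zero_iff (by omega) |>.1 h8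
        exact (sub_eq_zero.1 h9).symm
      · exact absurd (neg_eq_zero.1 h8) hz
    · exact absurd h7 hv
  · rintro rfl
    refine ⟨⟨fun x => ((if x ⟨m - 1, by omega⟩ then (1 : ℝ) else -1 : ℝ) : ℂ), ?_, ?_⟩, ?_⟩
    · intro h
      have := congrFun h (fun _ => true)
      simp at this
    · have h := Q_eigen hm a
      funext x
      have h1 := congrFun h x
      simp only [Matrix.mulVec, dotProduct, Matrix.neg_apply, Matrix.map_apply, Pi.smul_apply,
        smul_eq_mul] at h1 ⊢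
      have h2 := congrArg (fun r : ℝ => (r : ℂ)) h1
      simp only [Complex.ofReal_sum, Complex.ofReal_mul, Complex.ofReal_neg] at h2
      simp only [neg_mul, Finset.sum_neg_distrib]
      have h3 : ∑ y, (algebraMap ℝ ℂ) (Q m a x y) *
          ((if y ⟨m - 1, by omega⟩ then (1 : ℝ) else -1 : ℝ) : ℂ) =
          -((1 + a : ℝ) : ℂ) * ((if x ⟨m - 1, by omega⟩ then (1 : ℝ) else -1 : ℝ) : ℂ) := h2
      rw [h3]
      ring
    · have : (1 + a : ℝ) ≠ 0 := by linarith
      exact_mod_cast this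

end Pool.Agent.U137.DB
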